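import Pool.Agent.BSI.Stmts

/-!
BSI, row HB0: the Hilbert function of the base space with powers.
-/

set_option autoImplicit false

namespace Pool.Agent.BSI.H77

open MvPolynomial Pool.Agent.Helper78_ACIT Pool.Agent.BSH

theorem sp_nil {E A : Type} [Field E] [CommRing A] [Algebra E A] (S : Set A) :
    sp E S [] = Submodule.span E (insert 1 S) := by
  unfold sp
  congr 1
  ext x
  simp only [Set.mem_union, Set.mem_singleton_iff, Set.mem_insert_iff]
  constructor
  · rintro ((h | h) | h)
    · exact Or.inl h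
    · exact Or.inr h
    · exact absurd h List.not_mem_nil
  · rintro (h | h)
    · exact Or.inl (Or.inl h)
    · exact Or.inl (Or.inr h)

theorem vs_finite (E : Type) [Field E] (n : ℕ) : (vs E n).Finite := by
  have h : vs E n = (fun i : ℕ => (X i : MvPolynomial ℕ E)) '' {i | i < n} := by
    ext x
    constructor
    · rintro ⟨i, hi, rfl⟩
      exact ⟨i, hi, rfl⟩
    · rintro ⟨i, hi, rfl⟩
      exact ⟨i, hi, rfl⟩
  rw [h]
  exact (Set.finite_lt_nat n).image _

theorem pwm_finite (E : Type) [Field E] (m b c : ℕ) :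
    {x : MvPolynomial ℕ E | ∃ j ≤ c, x = X m ^ b ^ j}.Finite := by
  have h : {x : MvPolynomial ℕ E | ∃ j ≤ c, x = X m ^ b ^ j}
      = (fun j : ℕ => (X m : MvPolynomial ℕ E) ^ b ^ j) '' {j | j ≤ c} := by
    ext x
    constructor
    · rintro ⟨i, hi, rfl⟩
      exact ⟨i, hi, rfl⟩
    · rintro ⟨i, hi, rfl⟩
      exact ⟨i, hi, rfl⟩
  rw [h]
  exact (Set.finite_le_nat c).image _

theorem pw_succ (E : Type) [Field E] (k b c : ℕ) :
    pw E (k + 1) b c = pw E k b c ∪ {x : MvPolynomial ℕ E | ∃ j ≤ c, x = X k ^ b ^ j} := by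
  ext x
  constructor
  · rintro ⟨m, hm, j, hj, rfl⟩
    rcases Nat.lt_or_ge m k with h | h
    · exact Or.inl ⟨m, h, j, hj, rfl⟩
    · obtain rfl : m = k := by omega
      exact Or.inr ⟨j, hj, rfl⟩
  · rintro (⟨m, hm, j, hj, rfl⟩ | ⟨j, hj, rfl⟩)
    · exact ⟨m, by omega, j, hj, rfl⟩
    · exact ⟨k, by omega, j, hj, rfl⟩

theorem pw_zero (E : Type) [Field E] (b c : ℕ) : pw E 0 b c = ∅ := by
  ext x
  constructor
  · rintro ⟨m, hm, _⟩
    exact absurd hm (Nat.not_lt_zero m)
  · intro h
    exact absurd h (Set.notMem_empty x)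

theorem pw_finite (E : Type) [Field E] (k b c : ℕ) : (pw E k b c).Finite := by
  induction k with
  | zero =>
    rw [pw_zero]
    exact Set.finite_empty
  | succ k ih =>
    rw [pw_succ]
    exact ih.union (pwm_finite E k b c)

theorem step (adj : AdjStmt) {E A : Type} [Field E] [CommRing A] [IsDomain A] [Algebra E A]
    (S : Set A) (hS : S.Finite) (g : A) (b N : ℕ) (hb : 1 ≤ b)
    (hg : g ∈ (Submodule.span E (insert 1 S)) ^ b) :
    Module.finrank E ((Submodule.span E (insert 1 (insert g S))) ^ N : Submodule E A)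
      ≤ b * Module.finrank E ((Submodule.span E (insert 1 S)) ^ N : Submodule E A) := by
  have h1 : Module.Finite E (Submodule.span E (insert 1 S)) :=
    Module.Finite.span_of_finite E (hS.insert 1)
  have h2 := adj E A (Submodule.span E (insert 1 S)) g b N h1
    (Submodule.subset_span (Set.mem_insert 1 S)) hb hg
  have h3 : Submodule.span E (insert 1 (insert g S))
      = Submodule.span E (insert 1 S) ⊔ Submodule.span E {g} := by
    rw [Set.insert_comm, Submodule.span_insert g, sup_comm]
  rw [h3]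
  exact h2

theorem row (adj : AdjStmt) (E : Type) [Field E] (S : Set (MvPolynomial ℕ E)) (hS : S.Finite)
    (m b N : ℕ) (hb : 1 ≤ b) (hm : X m ∈ S) : ∀ c : ℕ,
    Module.finrank E ((Submodule.span E
      (insert 1 (S ∪ {x : MvPolynomial ℕ E | ∃ j ≤ c, x = X m ^ b ^ j}))) ^ N :
        Submodule E (MvPolynomial ℕ E))
      ≤ b ^ c * Module.finrank E ((Submodule.span E (insert 1 S)) ^ N :
        Submodule E (MvPolynomial ℕ E)) := by
  intro c
  induction c with
  | zero =>
    have h : S ∪ {x : MvPolynomial ℕ E | ∃ j ≤ 0, x = X m ^ b ^ j} = S := by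
      refine Set.union_eq_self_of_subset_right ?_
      rintro x ⟨j, hj, rfl⟩
      obtain rfl : j = 0 := by omega
      rw [pow_zero, pow_one]
      exact hm
    rw [h, pow_zero, one_mul]
  | succ c ih =>
    have h : S ∪ {x : MvPolynomial ℕ E | ∃ j ≤ c + 1, x = X m ^ b ^ j}
        = insert (X m ^ b ^ (c + 1)) (S ∪ {x : MvPolynomial ℕ E | ∃ j ≤ c, x = X m ^ b ^ j}) := by
      ext x
      constructor
      · rintro (h | ⟨j, hj, rfl⟩)
        · exact Or.inr (Or.inl h)
        · rcases Nat.lt_or_ge j (c + 1) with h | h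
          · exact Or.inr (Or.inr ⟨j, by omega, rfl⟩)
          · obtain rfl : j = c + 1 := by omega
            exact Or.inl rfl
      · rintro (h | h | ⟨j, hj, rfl⟩)
        · exact Or.inr ⟨c + 1, le_rfl, h⟩
        · exact Or.inl h
        · exact Or.inr ⟨j, by omega, rfl⟩
    rw [h]
    have hg : (X m : MvPolynomial ℕ E) ^ b ^ (c + 1) ∈ (Submodule.span E
        (insert 1 (S ∪ {x : MvPolynomial ℕ E | ∃ j ≤ c, x = X m ^ b ^ j}))) ^ b := by
      rw [pow_succ, pow_mul]
      refine Submodule.pow_mem_pow _ (Submodule.subset_span ?_) b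
      exact Or.inr (Or.inr ⟨c, le_rfl, rfl⟩)
    refine (step adj _ (hS.union (pwm_finite E m b c)) _ b N hb hg).trans ?_
    calc b * _ ≤ b * (b ^ c * _) := Nat.mul_le_mul_left b ih
      _ = b ^ (c + 1) * _ := by rw [pow_succ, ← mul_assoc, mul_comm b]

theorem hb0 (hbd : HbdStmt) (adj : AdjStmt) : Hb0Stmt := by
  intro E _ k r b c N hb
  have key : ∀ m ≤ k, Module.finrank E ((Submodule.span E
      (insert 1 (vs E (k + r) ∪ pw E m b c))) ^ N : Submodule E (MvPolynomial ℕ E))
      ≤ (b ^ c) ^ m * (N + (k + r)).choose (k + r) := by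
    intro m
    induction m with
    | zero =>
      intro _
      have h := hbd E (k + r) 1 [] [] le_rfl (fun u hu => absurd hu List.not_mem_nil) trivial N
      have h2 : vs E (k + r) ∪ {x : MvPolynomial ℕ E | x ∈ ([] : List (MvPolynomial ℕ E))}
          = vs E (k + r) ∪ pw E 0 b c := by
        rw [pw_zero]
        congr 1
        ext x
        simp
      rw [h2, sp_nil] at h
      rw [pow_zero, one_mul]
      refine h.trans (le_of_eq ?_)
      rw [List.length_nil, pow_zero, pow_zero, one_mul, one_mul]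
    | succ m ih =>
      intro hm
      have h1 := row adj E (vs E (k + r) ∪ pw E m b c) ((vs_finite E _).union (pw_finite E m b c))
        m b N hb (Or.inl ⟨m, by omega, rfl⟩) c
      rw [Set.union_assoc, ← pw_succ] at h1
      refine h1.trans ?_
      calc b ^ c * _ ≤ b ^ c * ((b ^ c) ^ m * (N + (k + r)).choose (k + r)) :=
            Nat.mul_le_mul_left _ (ih (by omega))
        _ = (b ^ c) ^ (m + 1) * (N + (k + r)).choose (k + r) := by rw [pow_succ]; ring
  have h := key k le_rfl
  unfold W0
  rw [sp_nil]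
  exact h

end Pool.Agent.BSI.H77
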